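import Mathlib
import Pool.Agent.Lib.MP_fe2d2a_anP.Moebius
import Pool.Agent.Lib.MP_fe2d2a_anNE.Block

/-!
The conclusion of Q1 is preserved by the maps `1 + cos (a k) = μ (1 + cos (b k))`, `0 < μ < 1`:
along the flow `u' = -(1 + u)` of the cosines the coefficients of the rotation derivative satisfy a
triangular system with nonnegative off-diagonal terms.
-/

set_option autoImplicit false

open Finset Polynomial Filter Set

namespace Pool.Agent.MP_fe2d2a_anAF

open Pool.Agent.MP_fe2d2a_anEC Pool.Agent.MP_fe2d2a_anR Pool.Agent.MP_fe2d2a_anP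
open Pool.Agent.MP_fe2d2a_anNE

variable {ι : Type*} [DecidableEq ι]

/-- The polynomial of derivatives along the flow `u' = -(1 + u)`. -/
noncomputable def EP (u : ι → ℝ) (A : Finset ι) : ℝ[X] :=
  ∑ k ∈ A, C (2 * (1 + u k)) * (X * QP u (A.erase k))

lemma EP_deriv (u : ℝ → ι → ℝ) (s : ℝ)
    (hu : ∀ k, HasDerivAt (fun s => u s k) (-(1 + u s k)) s) (A : Finset ι) : ∀ j : ℕ,
    HasDerivAt (fun s : ℝ => (QP (u s) A).coeff j) ((EP (u s) A).coeff j) s := by
  induction A using Finset.induction_on with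
  | empty =>
    intro j
    simp only [QP, EP, Finset.prod_empty, Finset.sum_empty, coeff_zero]
    exact hasDerivAt_const s _
  | insert k A hk ih =>
    intro j
    have hins : ∀ s : ℝ, QP (u s) (insert k A) =
        (X ^ 2 - C (2 * u s k) * X + 1) * QP (u s) A := by
      intro s
      unfold QP
      rw [Finset.prod_insert hk]
    have e1 : (fun s : ℝ => (QP (u s) (insert k A)).coeff j) =
        fun s : ℝ => (X ^ 2 * QP (u s) A).coeff j + (QP (u s) A).coeff j -
          2 * u s k * (X * QP (u s) A).coeff j := by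
      funext s
      rw [hins s, mul_factor_coeff]
    rw [e1]
    have hcos : HasDerivAt (fun s : ℝ => 2 * u s k) (2 * (-(1 + u s k))) s := (hu k).const_mul 2
    have d := ((deriv_X_sq_mul ih j).add (ih j)).sub (hcos.mul (deriv_X_mul ih j))
    refine HasDerivAt.congr_deriv d ?_
    have hD : EP (u s) (insert k A) = C (2 * (1 + u s k)) * (X * QP (u s) A) +
        (X ^ 2 - C (2 * u s k) * X + 1) * EP (u s) A := by
      unfold EP
      rw [Finset.sum_insert hk, Finset.erase_insert hk, Finset.mul_sum]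
      congr 1
      apply Finset.sum_congr rfl
      intro i hi
      have hik : i ≠ k := fun h => hk (h ▸ hi)
      have e : (insert k A).erase i = insert k (A.erase i) :=
        Finset.erase_insert_of_ne (Ne.symm hik)
      rw [e]
      have hk' : k ∉ A.erase i := fun h => hk (Finset.mem_of_mem_erase h)
      unfold QP
      rw [Finset.prod_insert hk']
      ring
    rw [hD, coeff_add, coeff_C_mul, mul_factor_coeff]
    ring

/-- The flow identity for the product. -/
lemma EP_identity (u : ι → ℝ) (A : Finset ι) :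
    (1 - X) * EP u A = -(X * (1 + X)) * derivative (QP u A) +
      C (2 * (A.card : ℝ)) * X * QP u A := by
  have e2 : C (2 * (A.card : ℝ)) * X * QP u A = ∑ k ∈ A, C 2 * X * QP u A := by
    rw [Finset.sum_const, nsmul_eq_mul, C_mul, C_eq_natCast]
    ring
  rw [QP_derivative, e2, Finset.mul_sum, ← Finset.sum_add_distrib]
  unfold EP
  rw [Finset.mul_sum]
  apply Finset.sum_congr rfl
  intro k hk
  have h := QP_erase u hk
  rw [← h]
  simp only [C_mul, C_add, map_one]
  have c2 : (C 2 : ℝ[X]) = 2 := rfl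
  rw [c2]
  ring

lemma EP_coeff (u : ι → ℝ) (A : Finset ι) (i : ℕ) :
    (EP u A).coeff i = -(i : ℝ) * (QP u A).coeff i +
      2 * ∑ j ∈ range i, ((A.card : ℝ) - j) * (QP u A).coeff j := by
  have h : EP u A = X * EP u A - X * derivative (QP u A) - X * (X * derivative (QP u A)) +
      C (2 * (A.card : ℝ)) * (X * QP u A) := by
    linear_combination EP_identity u A
  induction i with
  | zero =>
    rw [h]
    simp only [coeff_add, coeff_sub, mul_coeff_zero, coeff_X_zero, zero_mul]
    simp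
  | succ i ih =>
    have h1 := congrArg (fun p : ℝ[X] => p.coeff (i + 1)) h
    simp only [coeff_add, coeff_sub, coeff_C_mul, coeff_X_mul] at h1
    rw [h1, ih, Finset.sum_range_succ, coeff_derivative]
    have h2 : (X * derivative (QP u A)).coeff i = (i : ℝ) * (QP u A).coeff i := by
      rcases i with _ | i
      · simp
      · rw [coeff_X_mul, coeff_derivative]
        push_cast
        ring
    rw [h2]
    push_cast
    ring

/-- The weighted sum of the products with one factor removed. -/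
noncomputable def SP (w u : ι → ℝ) (A : Finset ι) : ℝ[X] := ∑ k ∈ A, C (w k) * QP u (A.erase k)

/-- The polynomial of derivatives of `SP` along the flow. -/
noncomputable def TP (w u : ι → ℝ) (A : Finset ι) : ℝ[X] :=
  ∑ k ∈ A, (C (-w k + w k / (1 - u k)) * QP u (A.erase k) + C (w k) * EP u (A.erase k))

lemma TP_identity (w u : ι → ℝ) (A : Finset ι) (hu : ∀ k ∈ A, 1 - u k ≠ 0) :
    (1 - X) ^ 2 * TP w u A = -(1 - X ^ 2) * (SP w u A + X * derivative (SP w u A)) +
      (C (2 * ((A.card : ℝ) - 1)) * X * (1 - X) - C 2 * X ^ 2) * SP w u A +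
      C (∑ k ∈ A, w k / (1 - u k)) * QP u A := by
  unfold TP SP
  rw [derivative_sum, map_sum, Finset.mul_sum, Finset.mul_sum, Finset.mul_sum, Finset.sum_mul,
    ← Finset.sum_add_distrib, Finset.mul_sum, ← Finset.sum_add_distrib, ← Finset.sum_add_distrib]
  apply Finset.sum_congr rfl
  intro k hk
  have h1 := EP_identity u (A.erase k)
  have h2 := QP_erase u hk
  have hc : ((A.erase k).card : ℝ) = (A.card : ℝ) - 1 := by
    rw [Finset.card_erase_of_mem hk, Nat.cast_sub (Finset.card_pos.2 ⟨k, hk⟩), Nat.cast_one]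
  rw [hc] at h1
  have h3 : C (w k / (1 - u k)) * C (1 - u k) = (C (w k) : ℝ[X]) := by
    rw [← C_mul, div_mul_cancel₀ _ (hu k hk)]
  rw [derivative_mul, derivative_C, zero_mul, zero_add, ← h2]
  have e1 : (C (-w k + w k / (1 - u k)) : ℝ[X]) = -C (w k) + C (w k / (1 - u k)) := by
    rw [C_add, C_neg]
  rw [e1]
  generalize (C (w k / (1 - u k)) : ℝ[X]) = v at *
  generalize derivative (QP u (A.erase k)) = q' at *
  generalize QP u (A.erase k) = q at *
  generalize EP u (A.erase k) = e at *
  simp only [C_mul, C_sub, C_1] at h1 h3 ⊢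
  have c2 : (C 2 : ℝ[X]) = 2 := rfl
  rw [c2] at h1 ⊢
  linear_combination (C (w k) * (1 - X)) * h1 - 2 * X * q * h3

/-- Solving the recursion. -/
lemma rec_solve (d ρ p : ℕ → ℝ) (n τ : ℝ)
    (h0 : d 0 = -ρ 0 + τ * p 0)
    (h1 : d 1 - 2 * d 0 = -2 * ρ 1 + 2 * (n - 1) * ρ 0 + τ * p 1)
    (h2 : ∀ i : ℕ, d (i + 2) - 2 * d (i + 1) + d i =
      -((i : ℝ) + 3) * ρ (i + 2) + 2 * (n - 1) * ρ (i + 1) + ((i : ℝ) + 1 - 2 * n) * ρ i +
        τ * p (i + 2)) (i : ℕ) :
    d i = -((i : ℝ) + 1) * ρ i + 2 * (n - 1 - i) * ∑ j ∈ range i, ρ j +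
      τ * ∑ j ∈ range (i + 1), ∑ l ∈ range (j + 1), p l := by
  have key : ∀ i : ℕ, (d i = -((i : ℝ) + 1) * ρ i + 2 * (n - 1 - i) * ∑ j ∈ range i, ρ j +
      τ * ∑ j ∈ range (i + 1), ∑ l ∈ range (j + 1), p l) ∧
      (d (i + 1) = -(((i + 1 : ℕ) : ℝ) + 1) * ρ (i + 1) +
        2 * (n - 1 - ((i + 1 : ℕ) : ℝ)) * ∑ j ∈ range (i + 1), ρ j +
      τ * ∑ j ∈ range (i + 1 + 1), ∑ l ∈ range (j + 1), p l) := by
    intro i
    induction i with
    | zero =>
      constructor
      · rw [h0]
        simp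
      · have e : d 1 = 2 * d 0 + (-2 * ρ 1 + 2 * (n - 1) * ρ 0 + τ * p 1) := by linarith
        simp only [zero_add]
        rw [e, h0]
        simp only [Finset.sum_range_succ, Finset.sum_range_zero]
        push_cast
        ring
    | succ i ih =>
      refine ⟨ih.2, ?_⟩
      have e : d (i + 1 + 1) = 2 * d (i + 1) - d i +
          (-((i : ℝ) + 3) * ρ (i + 2) + 2 * (n - 1) * ρ (i + 1) + ((i : ℝ) + 1 - 2 * n) * ρ i +
        τ * p (i + 2)) := by
        have := h2 i
        have e3 : i + 1 + 1 = i + 2 := rfl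
        rw [e3]
        linarith
      rw [e, ih.1, ih.2]
      simp only [Finset.sum_range_succ]
      push_cast
      ring
  exact (key i).1

lemma TP_coeff (w u : ι → ℝ) (A : Finset ι) (hu : ∀ k ∈ A, 1 - u k ≠ 0) (i : ℕ) :
    (TP w u A).coeff i = -((i : ℝ) + 1) * (SP w u A).coeff i +
      2 * ((A.card : ℝ) - 1 - i) * ∑ j ∈ range i, (SP w u A).coeff j +
      (∑ k ∈ A, w k / (1 - u k)) *
        ∑ j ∈ range (i + 1), ∑ l ∈ range (j + 1), (QP u A).coeff l := by
  have h : TP w u A = C 2 * (X * TP w u A) - X * (X * TP w u A) - SP w u A -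
      X * derivative (SP w u A) + X * (X * SP w u A) + X * (X * (X * derivative (SP w u A))) +
      C (2 * ((A.card : ℝ) - 1)) * (X * SP w u A) -
      C (2 * ((A.card : ℝ) - 1)) * (X * (X * SP w u A)) - C 2 * (X * (X * SP w u A)) +
      C (∑ k ∈ A, w k / (1 - u k)) * QP u A := by
    have h1 := TP_identity w u A hu
    have c2 : (C 2 : ℝ[X]) = 2 := rfl
    rw [c2] at h1 ⊢
    linear_combination h1
  have hd : ∀ i : ℕ, (X * derivative (SP w u A)).coeff i = (i : ℝ) * (SP w u A).coeff i := by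
    intro i
    rcases i with _ | i
    · simp
    · rw [coeff_X_mul, coeff_derivative]
      push_cast
      ring
  apply rec_solve (fun i => (TP w u A).coeff i) (fun i => (SP w u A).coeff i)
    (fun i => (QP u A).coeff i)
  · have h1 := congrArg (fun p : ℝ[X] => p.coeff 0) h
    simp only [coeff_add, coeff_sub, mul_coeff_zero, coeff_X_zero, zero_mul, coeff_C_zero,
      mul_zero] at h1
    linarith
  · have h1 := congrArg (fun p : ℝ[X] => p.coeff (0 + 1)) h
    simp only [coeff_add, coeff_sub, coeff_C_mul, hd] at h1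
    simp only [coeff_X_mul, mul_coeff_zero, coeff_X_zero, zero_mul] at h1
    push_cast at h1
    linarith
  · intro i
    have h1 := congrArg (fun p : ℝ[X] => p.coeff (i + 1 + 1)) h
    simp only [coeff_add, coeff_sub, coeff_C_mul, hd] at h1
    simp only [coeff_X_mul, hd] at h1
    push_cast at h1
    linarith

/-! ### Symmetry -/

private lemma af_fac_reverse (u : ℝ) : (X ^ 2 - C (2 * u) * X + 1 : ℝ[X]).reverse =
    X ^ 2 - C (2 * u) * X + 1 := by
  have hd : (X ^ 2 - C (2 * u) * X + 1 : ℝ[X]).natDegree = 2 := by compute_degree!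
  ext n
  rw [coeff_reverse, hd]
  rcases le_or_gt n 2 with h | h
  · rw [revAt_le h]
    interval_cases n
    · simp [coeff_X, coeff_one]
    · simp [coeff_one]
    · simp [coeff_X, coeff_one]
  · rw [revAt_eq_self_of_lt h]

private lemma af_QP_reverse (u : ι → ℝ) (A : Finset ι) : (QP u A).reverse = QP u A := by
  induction A using Finset.induction_on with
  | empty =>
    simp only [QP, Finset.prod_empty]
    rw [← C_1, reverse_C]
  | insert k A hk ih =>
    have e : QP u (insert k A) = (X ^ 2 - C (2 * u k) * X + 1) * QP u A := by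
      unfold QP
      rw [Finset.prod_insert hk]
    rw [e, reverse_mul_of_domain, ih, af_fac_reverse]

private lemma af_QP_symm (u : ι → ℝ) (A : Finset ι) {j : ℕ} (hj : j ≤ 2 * A.card) :
    (QP u A).coeff (2 * A.card - j) = (QP u A).coeff j := by
  have h := congrArg (fun p => p.coeff j) (af_QP_reverse u A)
  simp only [coeff_reverse, QP_natDegree, revAt_le hj] at h
  exact h

private lemma af_SP_symm (w u : ι → ℝ) (A : Finset ι) {i : ℕ} (hi : i + 1 < 2 * A.card) :
    (SP w u A).coeff (2 * A.card - 2 - i) = (SP w u A).coeff i := by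
  unfold SP
  rw [finsetSum_coeff, finsetSum_coeff]
  apply Finset.sum_congr rfl
  intro k hk
  have hc := Finset.card_erase_of_mem hk
  have e : 2 * A.card - 2 - i = 2 * (A.erase k).card - i := by
    rw [hc]
    omega
  rw [coeff_C_mul, coeff_C_mul, e, af_QP_symm]
  rw [hc]
  omega

/-! ### The flow -/

/-- The cosines along the flow. -/
noncomputable def fl (c : ι → ℝ) (s : ℝ) (k : ι) : ℝ := Real.exp (-s) * (1 + c k) - 1

omit [DecidableEq ι] in
lemma fl_zero (c : ι → ℝ) : fl c 0 = c := by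
  funext k
  simp [fl]

omit [DecidableEq ι] in
lemma fl_deriv (c : ι → ℝ) (s : ℝ) (k : ι) :
    HasDerivAt (fun s => fl c s k) (-(1 + fl c s k)) s := by
  have h1 : HasDerivAt (fun s : ℝ => Real.exp (-s)) (Real.exp (-s) * (-1)) s :=
    (hasDerivAt_neg s).exp
  have h2 := (h1.mul_const (1 + c k)).sub_const 1
  refine HasDerivAt.congr_deriv h2 ?_
  unfold fl
  ring

omit [DecidableEq ι] in
lemma fl_mem {c : ι → ℝ} {k : ι} (h1 : -1 < c k) (h2 : c k < 1) {s : ℝ} (hs : 0 ≤ s) :
    -1 < fl c s k ∧ fl c s k < 1 := by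
  have e1 : 0 < Real.exp (-s) := Real.exp_pos _
  have e2 : Real.exp (-s) ≤ 1 := Real.exp_le_one_iff.2 (by linarith)
  unfold fl
  constructor
  · have := mul_pos e1 (show 0 < 1 + c k by linarith)
    linarith
  · have h3 : Real.exp (-s) * (1 + c k) ≤ 1 * (1 + c k) :=
      mul_le_mul_of_nonneg_right e2 (by linarith)
    linarith

/-- The coefficients of index at most `n` stay nonnegative. -/
lemma QP_fl_nonneg (c : ι → ℝ) (A : Finset ι) (h : ∀ j, 0 ≤ (QP c A).coeff j) :
    ∀ i : ℕ, i ≤ A.card → ∀ s : ℝ, 0 ≤ s → 0 ≤ (QP (fl c s) A).coeff i := by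
  intro i
  induction i using Nat.strong_induction_on with
  | _ i ih =>
    intro hi s hs
    have hd : ∀ s : ℝ, HasDerivAt (fun s : ℝ => Real.exp (i * s) * (QP (fl c s) A).coeff i)
        (Real.exp (i * s) * (2 * ∑ j ∈ range i, ((A.card : ℝ) - j) *
          (QP (fl c s) A).coeff j)) s := by
      intro s
      have h1 : HasDerivAt (fun s : ℝ => Real.exp (i * s)) (Real.exp (i * s) * (i * 1)) s :=
        ((hasDerivAt_id s).const_mul (i : ℝ)).exp
      have h2 := EP_deriv (fun s => fl c s) s (fun k => fl_deriv c s k) A i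
      rw [EP_coeff] at h2
      refine HasDerivAt.congr_deriv (h1.mul h2) ?_
      ring
    have hm : MonotoneOn (fun s : ℝ => Real.exp (i * s) * (QP (fl c s) A).coeff i) (Set.Ici 0) := by
      apply monotoneOn_of_deriv_nonneg (convex_Ici 0)
      · exact fun t _ => (hd t).continuousAt.continuousWithinAt
      · exact fun t _ => (hd t).differentiableAt.differentiableWithinAt
      · intro t ht
        rw [interior_Ici] at ht
        rw [(hd t).deriv]
        apply mul_nonneg (Real.exp_pos _).le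
        apply mul_nonneg (by norm_num)
        apply Finset.sum_nonneg
        intro j hj
        have hj' := Finset.mem_range.1 hj
        have hjc : (j : ℝ) ≤ A.card := by
          exact_mod_cast (show j ≤ A.card by omega)
        exact mul_nonneg (by linarith) (ih j hj' (by omega) t (le_of_lt ht))
    have h3 := hm (Set.mem_Ici.2 (le_refl (0 : ℝ))) (Set.mem_Ici.2 hs) hs
    simp only [mul_zero, Real.exp_zero, one_mul, fl_zero] at h3
    have h4 : 0 ≤ Real.exp (i * s) * (QP (fl c s) A).coeff i := (h i).trans h3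
    exact (mul_nonneg_iff_of_pos_left (Real.exp_pos _)).1 h4

/-- All coefficients stay nonnegative. -/
lemma QP_fl_nonneg' (c : ι → ℝ) (A : Finset ι) (h : ∀ j, 0 ≤ (QP c A).coeff j) (i : ℕ)
    {s : ℝ} (hs : 0 ≤ s) : 0 ≤ (QP (fl c s) A).coeff i := by
  rcases Nat.lt_or_ge (2 * A.card) i with h1 | h1
  · rw [coeff_eq_zero_of_natDegree_lt]
    rw [QP_natDegree]
    exact h1
  · rcases le_or_gt i A.card with h2 | h2
    · exact QP_fl_nonneg c A h i h2 s hs
    · rw [← af_QP_symm (fl c s) A h1]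
      exact QP_fl_nonneg c A h _ (by omega) s hs

/-- The weights along the flow. -/
noncomputable def wt (c : ι → ℝ) (s : ℝ) (k : ι) : ℝ := Real.sqrt (1 - fl c s k ^ 2)

omit [DecidableEq ι] in
lemma wt_pos {c : ι → ℝ} {k : ι} (h1 : -1 < c k) (h2 : c k < 1) {s : ℝ} (hs : 0 ≤ s) :
    0 < wt c s k := by
  obtain ⟨h3, h4⟩ := fl_mem h1 h2 hs
  apply Real.sqrt_pos.2
  nlinarith

omit [DecidableEq ι] in
lemma wt_deriv {c : ι → ℝ} {k : ι} (h1 : -1 < c k) (h2 : c k < 1) {s : ℝ} (hs : 0 ≤ s) :
    HasDerivAt (fun s => wt c s k) (-wt c s k + wt c s k / (1 - fl c s k)) s := by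
  obtain ⟨h3, h4⟩ := fl_mem h1 h2 hs
  have h5 := wt_pos h1 h2 hs
  have h6 : wt c s k ^ 2 = 1 - fl c s k ^ 2 := by
    apply Real.sq_sqrt
    nlinarith
  have h7 : (0 : ℝ) < 1 - fl c s k ^ 2 := by nlinarith
  have h8 := ((fl_deriv c s k).pow 2).const_sub 1
  have h9 := h8.sqrt h7.ne'
  refine HasDerivAt.congr_deriv h9 ?_
  change _ / (2 * wt c s k) = _
  have h10 : 1 - fl c s k ≠ 0 := by linarith
  rw [div_eq_iff (by positivity)]
  have e : (-wt c s k + wt c s k / (1 - fl c s k)) * (2 * wt c s k) =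
      2 * (wt c s k ^ 2) * (fl c s k) / (1 - fl c s k) := by
    field_simp
    ring
  rw [e, h6, eq_div_iff h10]
  simp only [Nat.cast_ofNat]
  ring

lemma SP_deriv (c : ι → ℝ) (A : Finset ι) (hc : ∀ k ∈ A, -1 < c k ∧ c k < 1) {s : ℝ}
    (hs : 0 ≤ s) (i : ℕ) :
    HasDerivAt (fun s => (SP (wt c s) (fl c s) A).coeff i)
      ((TP (wt c s) (fl c s) A).coeff i) s := by
  unfold SP TP
  simp only [finsetSum_coeff, coeff_add, coeff_C_mul]
  apply HasDerivAt.fun_sum
  intro k hk
  exact (wt_deriv (hc k hk).1 (hc k hk).2 hs).mul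
    (EP_deriv (fun s => fl c s) s (fun k => fl_deriv c s k) (A.erase k) i)

/-- The coefficients of the rotation derivative of index at most `n - 1` stay nonnegative, and
become positive. -/
lemma SP_fl_pos (c : ι → ℝ) (A : Finset ι) (hc : ∀ k ∈ A, -1 < c k ∧ c k < 1)
    (hA : A.Nonempty) (h : ∀ j, 0 ≤ (QP c A).coeff j)
    (hr : ∀ j, 0 ≤ (SP (wt c 0) c A).coeff j) :
    ∀ i : ℕ, i + 1 ≤ A.card → ∀ s : ℝ, 0 ≤ s → 0 ≤ (SP (wt c s) (fl c s) A).coeff i ∧
      (0 < s → 0 < (SP (wt c s) (fl c s) A).coeff i) := by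
  intro i
  induction i using Nat.strong_induction_on with
  | _ i ih =>
    intro hi s hs
    have hd : ∀ s : ℝ, 0 ≤ s → HasDerivAt
        (fun s : ℝ => Real.exp ((i + 1) * s) * (SP (wt c s) (fl c s) A).coeff i)
        (Real.exp ((i + 1) * s) * (2 * ((A.card : ℝ) - 1 - i) *
          ∑ j ∈ range i, (SP (wt c s) (fl c s) A).coeff j +
          (∑ k ∈ A, wt c s k / (1 - fl c s k)) *
          ∑ j ∈ range (i + 1), ∑ l ∈ range (j + 1), (QP (fl c s) A).coeff l)) s := by
      intro s hs
      have h1 : HasDerivAt (fun s : ℝ => Real.exp ((i + 1) * s))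
          (Real.exp ((i + 1) * s) * ((i + 1) * 1)) s :=
        ((hasDerivAt_id s).const_mul ((i : ℝ) + 1)).exp
      have h2 := SP_deriv c A hc hs i
      rw [TP_coeff _ _ _ (fun k hk => by
        have := (fl_mem (hc k hk).1 (hc k hk).2 hs).2
        linarith)] at h2
      refine HasDerivAt.congr_deriv (h1.mul h2) ?_
      ring
    have hm : StrictMonoOn
        (fun s : ℝ => Real.exp ((i + 1) * s) * (SP (wt c s) (fl c s) A).coeff i) (Set.Ici 0) := by
      apply strictMonoOn_of_deriv_pos (convex_Ici 0)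
      · exact fun t ht => (hd t ht).continuousAt.continuousWithinAt
      · intro t ht
        rw [interior_Ici] at ht
        have ht0 : 0 ≤ t := le_of_lt ht
        rw [(hd t ht0).deriv]
        apply mul_pos (Real.exp_pos _)
        apply add_pos_of_nonneg_of_pos
        · apply mul_nonneg
          · have : (i : ℝ) + 1 ≤ A.card := by exact_mod_cast hi
            linarith
          · apply Finset.sum_nonneg
            intro j hj
            exact (ih j (Finset.mem_range.1 hj) (by have := Finset.mem_range.1 hj; omega) t ht0).1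
        · apply mul_pos
          · apply Finset.sum_pos _ hA
            intro k hk
            apply div_pos (wt_pos (hc k hk).1 (hc k hk).2 ht0)
            have := (fl_mem (hc k hk).1 (hc k hk).2 ht0).2
            linarith
          · apply Finset.sum_pos _ ⟨0, by simp⟩
            intro j _
            have h0 : (QP (fl c t) A).coeff 0 ≤ ∑ l ∈ range (j + 1), (QP (fl c t) A).coeff l :=
              Finset.single_le_sum (f := fun l => (QP (fl c t) A).coeff l)
                (fun l _ => QP_fl_nonneg' c A h l ht0) (Finset.mem_range.2 (by omega))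
            rw [QP_coeff_zero] at h0
            linarith
    have hstart : 0 ≤ Real.exp ((i + 1) * 0) * (SP (wt c 0) (fl c 0) A).coeff i := by
      rw [fl_zero]
      exact mul_nonneg (Real.exp_pos _).le (hr i)
    have hpos : 0 < s → 0 < (SP (wt c s) (fl c s) A).coeff i := by
      intro hs'
      have h3 := hm (Set.mem_Ici.2 (le_refl (0 : ℝ))) (Set.mem_Ici.2 hs) hs'
      have h4 : 0 < Real.exp ((i + 1) * s) * (SP (wt c s) (fl c s) A).coeff i :=
        lt_of_le_of_lt hstart h3
      exact (mul_pos_iff_of_pos_left (Real.exp_pos _)).1 h4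
    refine ⟨?_, hpos⟩
    rcases hs.eq_or_lt with h5 | h5
    · rw [← h5, fl_zero]
      exact hr i
    · exact (hpos h5).le

/-! ### The two theorems -/

private lemma af_deriv_nonneg {f : ℝ → ℝ} {f' ε : ℝ} (hε : 0 < ε) (hf : HasDerivAt f f' 0)
    (hm : MonotoneOn f (Set.Icc 0 ε)) : 0 ≤ f' := by
  have h1 : derivWithin f (Set.Icc 0 ε) 0 = f' :=
    hf.hasDerivWithinAt.derivWithin ((uniqueDiffOn_Icc hε) 0 (Set.left_mem_Icc.2 hε.le))
  rw [← h1]
  exact hm.derivWithin_nonneg

private lemma af_cos_mem {x : ℝ} (h0 : 0 < x) (h1 : x < Real.pi) :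
    -1 < Real.cos x ∧ Real.cos x < 1 := by
  constructor
  · rw [← Real.cos_pi]
    exact Real.cos_lt_cos_of_nonneg_of_le_pi h0.le le_rfl h1
  · rw [← Real.cos_zero]
    exact Real.cos_lt_cos_of_nonneg_of_le_pi le_rfl h1.le h0

omit [DecidableEq ι] in
private lemma af_fl_eq (a b : ι → ℝ) {μ : ℝ} (hμ0 : 0 < μ) {k : ι}
    (hab : 1 + Real.cos (a k) = μ * (1 + Real.cos (b k))) :
    fl (fun k => Real.cos (b k)) (-Real.log μ) k = Real.cos (a k) := by
  unfold fl
  rw [neg_neg, Real.exp_log hμ0]
  linarith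

omit [DecidableEq ι] in
private lemma af_QP_congr {u v : ι → ℝ} {A : Finset ι} (h : ∀ k ∈ A, u k = v k) :
    QP u A = QP v A := by
  unfold QP
  exact Finset.prod_congr rfl (fun k hk => by rw [h k hk])

/-- Nonnegative coefficients are preserved. -/
theorem affine_nonneg (a b : ι → ℝ) (A : Finset ι) {μ : ℝ} (hμ0 : 0 < μ) (hμ1 : μ < 1)
    (hab : ∀ k ∈ A, 1 + Real.cos (a k) = μ * (1 + Real.cos (b k)))
    (h : ∀ j, 0 ≤ (QP (fun k => Real.cos (b k)) A).coeff j) :
    ∀ j, 0 ≤ (QP (fun k => Real.cos (a k)) A).coeff j := by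
  intro j
  have hs : 0 ≤ -Real.log μ := by
    have := Real.log_neg hμ0 hμ1
    linarith
  have h1 := QP_fl_nonneg' (fun k => Real.cos (b k)) A h j hs
  rw [af_QP_congr (fun k hk => af_fl_eq a b hμ0 (hab k hk))] at h1
  exact h1

/-- **Propagation along the affine maps.**  If the product with angles `b k` has nonnegative
coefficients which are monotone for small rotations, the same holds for the product with angles
`a k`, where `1 + cos (a k) = μ (1 + cos (b k))`, `0 < μ < 1`. -/
theorem affine_block (a b : ι → ℝ) (A : Finset ι) (ha : ∀ k ∈ A, 0 < a k ∧ a k < Real.pi)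
    (hb : ∀ k ∈ A, 0 < b k ∧ b k < Real.pi) {μ : ℝ} (hμ0 : 0 < μ) (hμ1 : μ < 1)
    (hab : ∀ k ∈ A, 1 + Real.cos (a k) = μ * (1 + Real.cos (b k)))
    (hpos : ∀ j, 0 ≤ (QP (fun k => Real.cos (b k)) A).coeff j)
    (h : ∃ ε > (0 : ℝ), ∀ j, MonotoneOn (fun t : ℝ => (RP b A t).coeff j) (Set.Icc 0 ε)) :
    ∃ ε > (0 : ℝ), ∀ j, MonotoneOn (fun t : ℝ => (RP a A t).coeff j) (Set.Icc 0 ε) := by
  obtain ⟨ε, hε, hm⟩ := h
  set c : ι → ℝ := fun k => Real.cos (b k) with hc
  have hc1 : ∀ k ∈ A, -1 < c k ∧ c k < 1 := fun k hk => af_cos_mem (hb k hk).1 (hb k hk).2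
  have hs : 0 < -Real.log μ := by
    have := Real.log_neg hμ0 hμ1
    linarith
  -- the weights
  have hw0 : ∀ k ∈ A, wt c 0 k = Real.sin (b k) := by
    intro k hk
    unfold wt
    rw [fl_zero, hc]
    simp only
    rw [← Real.sin_sq, Real.sqrt_sq (Real.sin_pos_of_pos_of_lt_pi (hb k hk).1 (hb k hk).2).le]
  have hw1 : ∀ k ∈ A, wt c (-Real.log μ) k = Real.sin (a k) := by
    intro k hk
    unfold wt
    rw [hc, af_fl_eq a b hμ0 (hab k hk), ← Real.sin_sq,
      Real.sqrt_sq (Real.sin_pos_of_pos_of_lt_pi (ha k hk).1 (ha k hk).2).le]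
  -- the derivative at the angles `b` is nonnegative
  have hr : ∀ i, 0 ≤ (SP (wt c 0) c A).coeff i := by
    intro i
    have e : (fun t : ℝ => (RP b A t).coeff (i + 1)) =
        fun t : ℝ => (QP (fun k => Real.cos (t + b k)) A).coeff (i + 1) := by
      funext t
      rw [RP_eq]
    have hm1 := hm (i + 1)
    rw [e] at hm1
    have h1 := af_deriv_nonneg hε (coeff_deriv b A (i + 1) 0) hm1
    simp only [zero_add, coeff_X_mul] at h1
    have e2 : ∑ k ∈ A, 2 * Real.sin (b k) *
        (QP (fun k => Real.cos (b k)) (A.erase k)).coeff i = 2 * (SP (wt c 0) c A).coeff i := by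
      unfold SP
      rw [finsetSum_coeff, Finset.mul_sum]
      apply Finset.sum_congr rfl
      intro k hk
      rw [coeff_C_mul, hw0 k hk]
      ring
    rw [e2] at h1
    linarith
  apply block_of_pos a A
  intro i hi
  have hA : A.Nonempty := by
    rw [← Finset.card_pos]
    omega
  have hflow : ∀ k ∈ A, fl c (-Real.log μ) k = Real.cos (a k) :=
    fun k hk => af_fl_eq a b hμ0 (hab k hk)
  have e5 : ∑ k ∈ A, 2 * Real.sin (a k) *
      (QP (fun k => Real.cos (a k)) (A.erase k)).coeff i =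
      2 * (SP (wt c (-Real.log μ)) (fl c (-Real.log μ)) A).coeff i := by
    unfold SP
    rw [finsetSum_coeff, Finset.mul_sum]
    apply Finset.sum_congr rfl
    intro k hk
    rw [coeff_C_mul, hw1 k hk,
      af_QP_congr (fun l hl => hflow l (Finset.mem_of_mem_erase hl))]
    ring
  rw [e5]
  have hmain : 0 < (SP (wt c (-Real.log μ)) (fl c (-Real.log μ)) A).coeff i := by
    rcases le_or_gt (i + 1) A.card with h1 | h1
    · exact (SP_fl_pos c A hc1 hA hpos hr i h1 _ hs.le).2 hs
    · rw [← af_SP_symm _ _ A hi]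
      exact (SP_fl_pos c A hc1 hA hpos hr _ (by omega) _ hs.le).2 hs
  linarith

end Pool.Agent.MP_fe2d2a_anAF
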