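import Mathlib
import Pool.Agent.Lib.MP_fe2d2a_anMB.Moeb
import Pool.Agent.Lib.MP_fe2d2a_anAF.Affine

/-!
The conclusion of Q1 is preserved by the maps
`tan (a k / 2) ^ 2 = α * tan (b k / 2) ^ 2 + β`, `0 ≤ β ≤ α - 1`.
-/

set_option autoImplicit false

open Finset Polynomial Filter Set

namespace Pool.Agent.MP_fe2d2a_anAF

open Pool.Agent.MP_fe2d2a_anEC Pool.Agent.MP_fe2d2a_anR Pool.Agent.MP_fe2d2a_anP
open Pool.Agent.MP_fe2d2a_anNE Pool.Agent.MP_fe2d2a_anMB

variable {ι : Type*} [DecidableEq ι]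

omit [DecidableEq ι] in
private lemma pj_RP_congr {a b : ι → ℝ} {A : Finset ι} (h : ∀ k ∈ A, a k = b k) (t : ℝ) :
    RP a A t = RP b A t := by
  unfold RP
  exact Finset.prod_congr rfl (fun k hk => by rw [h k hk])

omit [DecidableEq ι] in
private lemma pj_QP_congr {a b : ι → ℝ} {A : Finset ι} (h : ∀ k ∈ A, a k = b k) :
    QP (fun k => Real.cos (a k)) A = QP (fun k => Real.cos (b k)) A := by
  unfold QP
  exact Finset.prod_congr rfl (fun k hk => by simp only [h k hk])

private lemma pj_tan_pos {x : ℝ} (h0 : 0 < x) (h1 : x < Real.pi) : 0 < Real.tan (x / 2) :=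
  Real.tan_pos_of_pos_of_lt_pi_div_two (by linarith) (by linarith)

private lemma pj_one_add_cos {x : ℝ} (h0 : 0 < x) (h1 : x < Real.pi) :
    (1 + Real.cos x) * (1 + Real.tan (x / 2) ^ 2) = 2 := by
  have h2 : 0 < Real.cos (x / 2) := by
    apply Real.cos_pos_of_mem_Ioo
    constructor <;> linarith [Real.pi_pos]
  have e : Real.cos x = 2 * Real.cos (x / 2) ^ 2 - 1 := by
    rw [← Real.cos_two_mul]
    congr 1
    ring
  have h3 := Real.sin_sq_add_cos_sq (x / 2)
  have h4 : Real.cos (x / 2) * Real.tan (x / 2) = Real.sin (x / 2) := by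
    rw [mul_comm, Real.tan_mul_cos h2.ne']
  rw [e]
  linear_combination 2 * h3 +
    2 * (Real.cos (x / 2) * Real.tan (x / 2) + Real.sin (x / 2)) * h4

private lemma pj_arctan_mem {T : ℝ} (hT : 0 < T) :
    0 < 2 * Real.arctan T ∧ 2 * Real.arctan T < Real.pi := by
  constructor
  · have := Real.arctan_pos.2 hT
    linarith
  · have := Real.arctan_lt_pi_div_two T
    linarith

/-- **Propagation.**  If the product with angles `b k` has nonnegative coefficients which are
monotone for small rotations, the same holds for the product with angles `a k`, where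
`tan (a k / 2) ^ 2 = α * tan (b k / 2) ^ 2 + β`, `0 ≤ β ≤ α - 1`. -/
theorem proj_block (a b : ι → ℝ) (A : Finset ι) (ha : ∀ k ∈ A, 0 < a k ∧ a k < Real.pi)
    (hb : ∀ k ∈ A, 0 < b k ∧ b k < Real.pi) {α β : ℝ} (hβ0 : 0 ≤ β) (hβ1 : β ≤ α - 1)
    (hab : ∀ k ∈ A, Real.tan (a k / 2) ^ 2 = α * Real.tan (b k / 2) ^ 2 + β)
    (hpos : ∀ j, 0 ≤ (QP (fun k => Real.cos (b k)) A).coeff j)
    (h : ∃ ε > (0 : ℝ), ∀ j, MonotoneOn (fun t : ℝ => (RP b A t).coeff j) (Set.Icc 0 ε)) :
    (∃ ε > (0 : ℝ), ∀ j, MonotoneOn (fun t : ℝ => (RP a A t).coeff j) (Set.Icc 0 ε)) ∧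
      ∀ j, 0 ≤ (QP (fun k => Real.cos (a k)) A).coeff j := by
  have hα : 0 < α := by linarith
  have hq0 : 0 < (1 + β) / α := by positivity
  have hq1 : (1 + β) / α ≤ 1 := (div_le_one hα).2 (by linarith)
  set L : ℝ := Real.sqrt ((1 + β) / α) with hL
  have hL0 : 0 < L := Real.sqrt_pos.2 hq0
  have hL1 : L ≤ 1 := Real.sqrt_le_one.2 hq1
  have hL2 : L ^ 2 = (1 + β) / α := Real.sq_sqrt hq0.le
  -- the intermediate angles
  set d : ι → ℝ := fun k => 2 * Real.arctan (Real.tan (b k / 2) / L) with hd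
  have hT : ∀ k ∈ A, 0 < Real.tan (b k / 2) := fun k hk => pj_tan_pos (hb k hk).1 (hb k hk).2
  have hdm : ∀ k ∈ A, 0 < d k ∧ d k < Real.pi :=
    fun k hk => pj_arctan_mem (div_pos (hT k hk) hL0)
  have hdt : ∀ k, Real.tan (d k / 2) = Real.tan (b k / 2) / L := by
    intro k
    have e : d k / 2 = Real.arctan (Real.tan (b k / 2) / L) := by
      rw [hd]
      ring
    rw [e, Real.tan_arctan]
  -- first step
  have hstep1 : (∃ ε > (0 : ℝ), ∀ j,
      MonotoneOn (fun t : ℝ => (RP d A t).coeff j) (Set.Icc 0 ε)) ∧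
      ∀ j, 0 ≤ (QP (fun k => Real.cos (d k)) A).coeff j := by
    have hbd : ∀ k ∈ A, 2 * Real.arctan (L * Real.tan (d k / 2)) = b k := by
      intro k hk
      rw [hdt k, mul_div_cancel₀ _ hL0.ne', Real.arctan_tan]
      · ring
      · linarith [(hb k hk).1, Real.pi_pos]
      · linarith [(hb k hk).2]
    rcases hL1.eq_or_lt with h1 | h1
    · have e : ∀ k ∈ A, d k = b k := by
        intro k hk
        have h2 := hbd k hk
        rw [h1, one_mul, Real.arctan_tan] at h2
        · linarith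
        · linarith [(hdm k hk).1, Real.pi_pos]
        · linarith [(hdm k hk).2]
      rw [pj_QP_congr e]
      refine ⟨?_, hpos⟩
      simp only [pj_RP_congr e]
      exact h
    · have h3 := pj_QP_congr hbd
      constructor
      · apply moebius_block d A hdm L hL0 h1
          (fun k => 2 * Real.arctan (L * Real.tan (d k / 2))) (fun k => rfl)
        simp only [pj_RP_congr hbd]
        exact h
      · apply moebius_nonneg d A hdm L hL0 h1
          (fun k => 2 * Real.arctan (L * Real.tan (d k / 2))) (fun k => rfl)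
        rw [h3]
        exact hpos
  -- second step
  have hrel : ∀ k ∈ A, 1 + Real.cos (a k) = 1 / (1 + β) * (1 + Real.cos (d k)) := by
    intro k hk
    have e1 := pj_one_add_cos (ha k hk).1 (ha k hk).2
    have e2 := pj_one_add_cos (hdm k hk).1 (hdm k hk).2
    rw [hdt k, div_pow, hL2] at e2
    rw [hab k hk] at e1
    have h4 : (0 : ℝ) < 1 + β := by linarith
    have h5 : (0 : ℝ) < 1 + (α * Real.tan (b k / 2) ^ 2 + β) := by positivity
    have e3 : 1 + Real.tan (b k / 2) ^ 2 / ((1 + β) / α) =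
        (1 + (α * Real.tan (b k / 2) ^ 2 + β)) / (1 + β) := by
      field_simp
      ring
    rw [e3] at e2
    have e4 : 1 / (1 + β) * (1 + Real.cos (d k)) * (1 + (α * Real.tan (b k / 2) ^ 2 + β)) =
        (1 + Real.cos (d k)) * ((1 + (α * Real.tan (b k / 2) ^ 2 + β)) / (1 + β)) := by
      rw [one_div_mul_eq_div, div_mul_eq_mul_div, mul_div_assoc]
    exact mul_right_cancel₀ h5.ne' (e1.trans (e4.trans e2).symm)
  rcases hβ0.eq_or_lt with h1 | h1
  · have e : ∀ k ∈ A, a k = d k := by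
      intro k hk
      have h2 := hrel k hk
      rw [← h1] at h2
      apply Real.injOn_cos ⟨(ha k hk).1.le, (ha k hk).2.le⟩ ⟨(hdm k hk).1.le, (hdm k hk).2.le⟩
      linarith
    rw [pj_QP_congr e]
    refine ⟨?_, hstep1.2⟩
    simp only [pj_RP_congr e]
    exact hstep1.1
  · have hμ0 : 0 < 1 / (1 + β) := by positivity
    have hμ1 : 1 / (1 + β) < 1 := (div_lt_one (by linarith)).2 (by linarith)
    exact ⟨affine_block a d A ha hdm hμ0 hμ1 hrel hstep1.2 hstep1.1,
      affine_nonneg a d A hμ0 hμ1 hrel hstep1.2⟩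

end Pool.Agent.MP_fe2d2a_anAF
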